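import Pool.Agent.D0H67.CX.Ex3
import Pool.Agent.D0H65.CX.Vmon3
import Pool.Agent.D0H22.CX.Rel3
import Pool.Agent.D0H22.CX.Genv3
import Pool.Agent.D0H29.CX.Orb
import Pool.Agent.D0H29.CX.Prodz
import Pool.Agent.D0H9.CX.Powz
import Pool.Agent.D0H9.CX.Powr
import Pool.Agent.D0H9.CX.Powm
import Pool.Agent.D0H35.CX.Rec3

set_option autoImplicit false

/-! # The motivic monodromy conjecture for iterated quasi-homogeneous cones of maximal analytic spread

`Germ g D` (in `Pool.Agent.D0H67.CX.Germ3`) is the least class of germs at the origin of ideals `(g j)`,
with sets `D` of pairs of integers, with the following properties.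

(fold) It contains the ideals of fold type `J_P = ∑_{e ∈ P} ∏_s I(L s) ^ e s` of linear subspaces
`L s`, where `P` is a finite set of exponents with the properties `Greedy` and `ExchOn` (for all closed
sets `A` with `f(A) > 0`, `f(A)` the least value of `e(A)`, `e ∈ P`), with the pairs
`(-codim G_A, f(A))`, `G_A = ⋂_A L`. For example the ideals of star configurations, and all powers of
the ideal of one linear subspace.

(prod) It contains the products `∏_s I(L s) ^ e s`, `e s > 0`, of powers of the ideals of arbitrary
proper linear subspaces, with the pairs `(-codim G_A, e(A))` of the irreducible sets `A`.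

(pull) It contains the pull-backs of its germs by polynomial maps `f` with `f(0) = 0` and surjective
differential at `0`, and the ideals which are equal to them near `0`.

(ext) It contains the products of its germs in disjoint sets of variables.

(pow) It contains the powers of its germs, with the pairs `(a, m b)`, `(a, b) ∈ D`.

(cone) Let `x` be the variables of weight `w i > 0`, let `s` be the variables of weight `0`
(parameters), and let the `g j` be weighted homogeneous of degree `d > 0` in `x`, with coefficients
which are polynomials in `s`. Let `C` be the set of the points `(x, 0)`, `x ≠ 0`, at which all `g j` vanish.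
Suppose that

* the greatest common divisor of the weights of the coordinates `≠ 0` of `u` is `1`, for every point `u`
  of `C` (this holds if all the weights are `0` or `1`);
* the greatest common divisor of all the weights is `1`, and as many of the `g j` as there are variables
  `x` are algebraically independent over `ℂ(s)` (the ideal has maximal analytic spread along
  `x = 0`); or `d ∣ (∑ w i) N` for some pair `(-c, N)` of a fold chart at a point of `C`;
* there are finitely many charts, that is polynomial maps `f ω` to affine spaces and germs `g' ω` of the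
  class, such that the ideal `(g j)` is the pull-back of `g' ω` by `f ω` where `h ω ≠ 0`, and every point
  `u` of `C` is the center of one of the charts, i.e. `f ω (u) = 0`, `f ω` has surjective differential at
  `u`, and `h ω (u) ≠ 0`, or `(g j)` is of fold type at `u` (`LocFold`, for example a power of the ideal of
  a smooth subvariety through `u`).

Then `(g j)` belongs to the class, with the pair `(-∑ w i, d)` and the pairs of the charts.

So the ideals of the class can be principalized by iterated (weighted) blow-ups of strata along which
they are homogeneous. For example, the following ideals belong to the class (`Qh.smooth`,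
`Qh.primary` in `Pool.Agent.D0H67.CX.Ex3`): the ideals generated by forms of the same degree in `n`
variables, `n` of which are algebraically independent, which outside the origin are locally powers
of ideals of smooth subvarieties, i.e. all the ideals of smooth projective varieties (and of
disjoint unions of smooth projective varieties with multiplicities) which are generated by such
forms, for example all the truncations `⊕_{e ≥ d} (I_X)_e`, `d` large; and the ideals generated by
weighted homogeneous polynomials of the same degree, with an isolated zero, `n` of which are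
algebraically independent.

*The motivic zeta function* `zetaJ g` is `𝕃 ^ (-n) ∑_{N ≥ 1} [X_N] 𝕃 ^ (-n N) T ^ N`, where
`X_N` is the variety of the `N`-jets at the origin on which the ideal has the order `N`, and `n` is the
number of the variables. By the change of variables formula this is the function defined with a
principalization. `𝕃 ^ (-s₀)` is a pole if it does not lie in `ratRing ℂ {q | 0 < q.2, q.1 / q.2 ≠ s₀}`,
the ring generated over `𝓜 = K₀(Var_ℂ)[𝕃⁻¹]` by `T` and the `1 / (1 - 𝕃 ^ q.1 T ^ q.2)`.

*The monodromy zeta functions.* The points of the exceptional divisor of the blow-up of `(g_j)` over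
`p` are the points `e = (p, [y])` for which there is an arc `φ` with `φ(0) = p` and
`g_j(φ) = t ^ N (c y_j + ⋯)`, `c ≠ 0`. `JetE g p y N` is the variety of the `N`-jets `φ` with these
properties. By the change of variables formula, applied to a principalization `X̃` with the morphism `ψ`
to the blow-up, its class is the sum of the `[E_j° ∩ ψ⁻¹(e)] (𝕃 - 1) 𝕃 ^ (n N - ν_j N / N_j)`,
`N_j ∣ N`, modulo `(𝕃 - 1) ^ 2`, and so the Euler characteristic of the quotient by `𝔾_m`
(`φ(t) ↦ φ(λ t)`) is the sum of the `χ(E_j° ∩ ψ⁻¹(e))` over the `j` with `N_j ∣ N`. By the formula of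
A'Campo type, the exponents `b M` of `Z^mon_{I,e} = ∏_M (1 - t ^ M) ^ (b M)` are determined by
`∑_{M ∣ N} b M = χ(JetE g p y N / 𝔾_m)` for all `N ≥ 1`. This is the definition of `MonZeta g p y b`
(`EulerQ`: `[X] 𝕃 ^ k = (𝕃 - 1) P(𝕃)` and `χ(X / 𝔾_m) = P(1)`). The order of
`∏_M (1 - t ^ M) ^ (b M)` at `exp(2 π i s₀)` is the sum of the `b M` with `s₀ M ∈ ℤ`.

The proof. Rationality: the jets with the origin `0` which are divisible by `t ^ w` are divided by
`t ^ w`, and the others have order `< d`; over the points of `C` there are finitely many charts, over
whose strata the series of the jets are products (the map of the jets induced by a smooth map is a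
fibration). The poles: let `v = (v', s)` be a general point near the origin and let
`e = (0, s, [g(v)])`. Every coordinate function `x_i` satisfies a homogeneous algebraic equation over
the algebraically independent `g j` and `s`, and this equation shows that the arcs over `e` are the arcs
`(t ^ (a w i) (u_i + ⋯))` with `g(u, s) = c g(v)`, and that these `u` form finitely many orbits of `𝔾_m`; so
`Z^mon_e = (1 - t ^ d) ^ k`, `k > 0`. The monodromy zeta functions at the other points come from the
charts. -/

namespace Pool.Agent.Results.MP_4e5fcd_ag.ConeGerms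

open Pool.Agent.W428.MOT Pool.Agent.TH192.MT Pool.Agent.D0H67.SUB Pool.Agent.D0H67.CX

open Classical in
/-- In every ball around the origin there is a point `p`, and a point `e = (p, [y])` of the
exceptional divisor of the blow-up of the ideal `(g j)`, such that `exp(2 π i s₀)` is a zero or a pole
of `Z^mon_e`. -/
def Eig {σ J : Type} [Fintype σ] (g : J → MvPolynomial σ ℂ) (s₀ : ℚ) : Prop :=
  ∀ ε : ℝ, 0 < ε → ∃ p : σ → ℂ, ‖p‖ < ε ∧ ∃ (y : J → ℂ) (b : ℕ →₀ ℤ), MonZeta g p y b ∧
    ∑ M ∈ b.support.filter (fun M : ℕ => ∃ k : ℤ, s₀ * (M : ℚ) = k), b M ≠ 0

/-- Q1 for the ideal generated by the polynomials `g j`: for every rational number `s₀`, if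
`𝕃 ^ (-s₀)` is a pole of the local motivic zeta function at the origin, then `Eig g s₀`. -/
def Q1 {σ J : Type} [Fintype σ] (g : J → MvPolynomial σ ℂ) : Prop :=
  ∀ s₀ : ℚ, zetaJ g ∈ ratRing ℂ {q : ℤ × ℤ | 0 < q.2 ∧ (q.1 : ℚ) / q.2 ≠ s₀} ∨ Eig g s₀

/-- **The motivic monodromy conjecture for the class `Germ`**, which contains the products of powers
and the fold-type sums of ideals of linear subspaces, and is closed under smooth pull-backs, products
in disjoint sets of variables, powers, and families of quasi-homogeneous cones of maximal
analytic spread. For every germ `g` of the class, with the set of pairs `D`, (1) Q1 holds for `g`; (2)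
the motivic zeta function lies in the ring generated over `𝓜` by `T` and the
`1 / (1 - 𝕃 ^ q.1 T ^ q.2)`, `q ∈ D`; (3) for all `q ∈ D`, `q.2 > 0` and `exp(2 π i q.1 / q.2)` is a zero or
a pole of `Z^mon_e` for points `e` over points as near to the origin as one wants. -/
theorem result {σ J : Type} [Fintype σ] [Finite J] (g : J → MvPolynomial σ ℂ)
    (D : Set (ℤ × ℤ)) (h : Qh.Germ g D) :
    Q1 g ∧ zetaJ g ∈ ratRing ℂ D ∧ ∀ q ∈ D, 0 < q.2 ∧ Eig g ((q.1 : ℚ) / q.2) := by
  have hG := Qh.main Pool.Agent.D0H35.CX.t_ADD2 Pool.Agent.D0H35.CX.t_REC3
    Pool.Agent.D0H35.CX.t_SCALE2 (Pool.Agent.D0H65.CX.Vmon3.t_VMON3 Pool.Agent.D0H29.CX.t_ORB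
      (Pool.Agent.D0H22.CX.t_GENV3 Pool.Agent.D0H22.CX.t_REL3))
    Pool.Agent.D0H29.CX.t_PRODZ Pool.Agent.D0H9.CX.t_POWZ Pool.Agent.D0H9.CX.t_POWR
    Pool.Agent.D0H9.CX.t_POWM g D h
  refine ⟨fun s₀ => ?_, hG.2.1, fun q hq => ⟨hG.1 q hq, hG.2.2 q hq⟩⟩
  by_cases hs : ∃ q ∈ D, (q.1 : ℚ) / q.2 = s₀
  · right
    obtain ⟨q, hq, rfl⟩ := hs
    exact hG.2.2 q hq
  · left
    refine Pool.Agent.TH192.MT.rat_mono (Lu ℂ) ?_ hG.2.1
    exact fun q hq => ⟨hG.1 q hq, fun h1 => hs ⟨q, hq, h1⟩⟩

end Pool.Agent.Results.MP_4e5fcd_ag.ConeGerms
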