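import Pool.Agent.D0H67.PM.Fin

set_option autoImplicit false

/-! # The motivic monodromy conjecture for ideals generated by a-fold products of linear forms

Let `L s = zeros (c s)`, `s ∈ S`, be arbitrary proper linear subspaces of `ℂ ^ σ`, given by linear forms
with the coefficients `c s j`. For a finite set `P` of exponents `e : S → ℕ` let

  `J_P = ∑_{e ∈ P} ∏_s I(L s) ^ e s`,

which is generated by `gensP P c`, the products of `e s` of the linear forms of each `L s`, `e ∈ P`.

The main example: let `m s ≥ 1` and `a < ∑ m s`, and let `P = Uni m a` be the set of all `e ≤ m` with the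
sum `a`. If the `L s` are hyperplanes `ℓ_s = 0`, then `J_P` is the ideal generated by the products of
`a` of the linear forms `ℓ_s`, where `ℓ_s` occurs `m s` times (ideals generated by `a`-fold products of
linear forms; for generic hyperplanes and `m s = 1` it is the radical ideal of the star configuration,
the union of all the intersections of `|S| - a + 1` of the hyperplanes). The case `a = ∑ m s`
is the case of the hyperplane arrangements, see Budur, Mustata and Teitler, and, for subspaces,
`SubspaceArrangements`; it is not covered here, since there the behaviour is different.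

More generally, `P` may be any set with the following two properties. For `A ⊆ S` let
`f(A) = fP P hP A` be the least value of `e(A) = ∑_{s ∈ A} e s`, `e ∈ P`. (1) `Greedy`: for every chain of
sets there is a member of `P` which is minimal on all of them (this is so for the bases of polymatroids).
(2) `ExchOn`: for all closed `A` (`A` contains all `s` with `⋂_A L ⊆ L s`) with `f(A) > 0` and all
`s ≠ t` in `A` there are `e` and `e - s + t` in `P`, with `e(A) = f(A)`.

*The motivic zeta function* `zetaJ (gensP P c)` is `𝕃 ^ (-n) ∑_{N ≥ 1} [X_N] 𝕃 ^ (-n N) T ^ N`, where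
`X_N` is the variety of the `N`-jets at the origin on which the ideal has the order `N`, and `n` is the
number of the variables. By the change of variables formula this is the function defined with a
principalization. `𝕃 ^ (-s₀)` is a pole if it does not lie in `ratRing ℂ {q | 0 < q.2, q.1 / q.2 ≠ s₀}`,
the ring generated over `𝓜 = K₀(Var_ℂ)[𝕃⁻¹]` by `T` and the `1 / (1 - 𝕃 ^ q.1 T ^ q.2)`.

*The monodromy zeta functions.* The points of the exceptional divisor of the blow-up of `(f_j)` over
`p` are the points `e = (p, [y])` for which there is an arc `φ` with `φ(0) = p` and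
`f_j(φ) = t ^ N (c y_j + ⋯)`, `c ≠ 0`. `JetE f p y N` is the variety of the `N`-jets `φ` with these
properties. By the change of variables formula, applied to a principalization `X̃` with the morphism `ψ`
to the blow-up, its class is the sum of the `[E_j° ∩ ψ⁻¹(e)] (𝕃 - 1) 𝕃 ^ (n N - ν_j N / N_j)`,
`N_j ∣ N`, modulo `(𝕃 - 1) ^ 2`, and so the Euler characteristic of the quotient by `𝔾_m`
(`φ(t) ↦ φ(λ t)`) is the sum of the `χ(E_j° ∩ ψ⁻¹(e))` over the `j` with `N_j ∣ N`. By the formula of
A'Campo type, the exponents `b M` of `Z^mon_{I,e} = ∏_M (1 - t ^ M) ^ (b M)` are determined by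
`∑_{M ∣ N} b M = χ(JetE f p y N / 𝔾_m)` for all `N ≥ 1`. This is the definition of `MonZeta f p y b`
(`EulerQ`: `[X] 𝕃 ^ k = (𝕃 - 1) P(𝕃)` and `χ(X / 𝔾_m) = P(1)`). The order of
`∏_M (1 - t ^ M) ^ (b M)` at `exp(2 π i s₀)` is the sum of the `b M` with `s₀ M ∈ ℤ`.

The proof. The order of `J_P` on a jet is the sum of the `f(A_k)`, `k ≥ 0`, where `A_k` is the set
of the `s` such that the jet lies in `L s` up to the order `k` (this is the greedy algorithm); the jets
with the origin `0` are divided by `t` and the origin of the quotient is moved to `0`, which gives a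
recursion for the zeta functions and the denominators. The leading coefficients along `p + t v`,
`p ∈ G = ⋂_A L` and `v` general, are `0` for the `e` with `e(A) > f(A)`, and by the exchange
property a jet has proportional leading coefficients only if its orders along all the `L s`, `s ∈ A`, are
equal and the coefficient of this order lies in `ℂ^* v + G`. -/

namespace Pool.Agent.Results.MP_4e5fcd_ag.FoldProducts

open Pool.Agent.W428.MOT Pool.Agent.TH192.MT Pool.Agent.D0H67.SUB Pool.Agent.D0H67.PM

section defs

variable {σ S : Type} [Fintype σ]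

/-- The intersection of the linear subspaces `L s`, `s ∈ A`. -/
noncomputable def Gs {κ : S → Type} (c : (s : S) → κ s → σ → ℂ) (A : Finset S) :
    Submodule ℂ (σ → ℂ) := A.inf fun s => zeros (c s)

/-- `A` contains all `s` with `⋂_A L ⊆ L s`. -/
def Closed {κ : S → Type} (c : (s : S) → κ s → σ → ℂ) (A : Finset S) : Prop :=
  ∀ s, Gs c A ≤ zeros (c s) → s ∈ A

open Classical in
/-- Q1 for the ideal generated by the polynomials `f j`: for every rational number `s₀`, if
`𝕃 ^ (-s₀)` is a pole of the local motivic zeta function at the origin, then in every ball around the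
origin there is a point `p`, and a point `e = (p, [y])` of the exceptional divisor of the blow-up,
such that `exp(2 π i s₀)` is a zero or a pole of `Z^mon_e`. -/
def Q1 {J : Type} (f : J → MvPolynomial σ ℂ) : Prop :=
  ∀ s₀ : ℚ, zetaJ f ∈ ratRing ℂ {q : ℤ × ℤ | 0 < q.2 ∧ (q.1 : ℚ) / q.2 ≠ s₀} ∨
    ∀ ε : ℝ, 0 < ε → ∃ p : σ → ℂ, ‖p‖ < ε ∧ ∃ (y : J → ℂ) (b : ℕ →₀ ℤ), MonZeta f p y b ∧
      ∑ M ∈ b.support.filter (fun M : ℕ => ∃ k : ℤ, s₀ * (M : ℚ) = k), b M ≠ 0

/-- The conclusion, for the ideal generated by the polynomials `f j`, the linear subspaces `L s`, and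
the numbers `r A`: (1) Q1 holds. (2) The motivic zeta function lies in the ring generated over `𝓜` by
`T` and the `1 / (1 - 𝕃 ^ (-codim G_A) T ^ r A)`, `A` closed, `r A > 0`. (3) For all these `A` there
are points `p ∈ G_A` as near to the origin as one wants, and `e = (p, [y])`, with
`Z^mon_e = 1 - t ^ r A`. -/
def Concl {κ : S → Type} (c : (s : S) → κ s → σ → ℂ) {J : Type} (f : J → MvPolynomial σ ℂ)
    (r : Finset S → ℕ) : Prop :=
  Q1 f ∧
  zetaJ f ∈ ratRing ℂ {q : ℤ × ℤ | ∃ A : Finset S, Closed c A ∧ 0 < r A ∧
    q = (-((Fintype.card σ - Module.finrank ℂ (Gs c A) : ℕ) : ℤ), (r A : ℤ))} ∧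
  ∀ A : Finset S, Closed c A → 0 < r A → ∀ ε : ℝ, 0 < ε →
    ∃ p ∈ Gs c A, ‖p‖ < ε ∧ ∃ y : J → ℂ, MonZeta f p y (Finsupp.single (r A) 1)

end defs

open Classical in
/-- **The motivic monodromy conjecture for ideals generated by `a`-fold products of linear forms.** Let
`L s` be proper linear subspaces of `ℂ ^ σ`. A set `A` of indices is closed if it contains all `s` with
`G_A = ⋂_A L ⊆ L s`.
(A) Let `P` be a finite set of exponents with the property `Greedy`, and with the property `ExchOn`
for all closed `A` with `f(A) > 0`, and let `J = ∑_{e ∈ P} ∏_s I(L s) ^ e s`. Then: (1) Q1 holds for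
`J`: for every rational number `s₀`, if `𝕃 ^ (-s₀)` is a pole of the local motivic zeta function of `J` at
the origin, then in every ball around the origin there is a point `p`, and a point `e = (p, [y])` of
the exceptional divisor of the blow-up of `J`, such that `exp(2 π i s₀)` is a zero or a pole of
`Z^mon_{J,e}`. (2) The motivic zeta function lies in the ring generated over `𝓜` by `T` and the
`1 / (1 - 𝕃 ^ (-codim G_A) T ^ f(A))`, `A` closed, `f(A) > 0`. (3) For all these `A` there are
points `p ∈ G_A` as near to the origin as one wants, and `e = (p, [y])`, with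
`Z^mon_{J,e} = 1 - t ^ f(A)`.
(B) The same, for the ideal generated by the products of `a` of the linear forms, in which those of
`L s` occur `m s` times, `m s > 0`, `a < ∑ m s`, with the numbers `f(A) = a - ∑_{s ∉ A} m s` (`0` if
this is negative). -/
theorem result {σ S : Type} [Fintype σ] [Fintype S] {κ : S → Type}
    (c : (s : S) → κ s → σ → ℂ) (hc : ∀ s, zeros (c s) ≠ ⊤) :
    (∀ (P : Finset (S → ℕ)) (hP : P.Nonempty), Greedy P hP →
      (∀ A : Finset S, Closed c A → 0 < fP P hP A → ExchOn P hP A) →
      Concl c (gensP P c) (fP P hP)) ∧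
    ∀ (m : S → ℕ) (a : ℕ), (∀ s, 0 < m s) → a < ∑ s, m s →
      Concl c (gensP (Uni m a) c) fun A => a - ∑ s ∈ Finset.univ \ A, m s := by
  have key : ∀ (P : Finset (S → ℕ)) (hP : P.Nonempty), Greedy P hP →
      (∀ A : Finset S, Closed c A → 0 < fP P hP A → ExchOn P hP A) →
      Concl c (gensP P c) (fP P hP) := fun P hP hG hX =>
    And.intro (fun s₀ => Fin.q1 c P hP hG hc hX s₀) (And.intro (Fin.rat c P hP hG)
      fun A hA hf ε hε => Fin.mon c P hP hc A hA hf (hX A hA hf) ε hε)
  refine ⟨key, fun m a hm ha => ?_⟩
  obtain ⟨hP, hG, hf, hX⟩ := Unif.main m a hm ha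
  have h := key (Uni m a) hP hG fun A _ hA => hX A hA
  have h' : fP (Uni m a) hP = fun A => a - ∑ s ∈ Finset.univ \ A, m s := funext hf
  rw [h'] at h
  exact h

end Pool.Agent.Results.MP_4e5fcd_ag.FoldProducts
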