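import Pool.Agent.D0H67.SUB.Fin
import Pool.Agent.D0H25.SUB.Beta
import Pool.Agent.D0H25.SUB.Forms
import Pool.Agent.D0H9.SUB.Ord
import Pool.Agent.D0H9.SUB.Pt

set_option autoImplicit false

/-! # The motivic monodromy conjecture for arbitrary products of powers of ideals of linear subspaces

Let `L s = zeros (c s)`, `s ∈ S`, be arbitrary proper linear subspaces of `ℂ ^ σ`, given as the zeros
of linear forms with the coefficients `c s j`, let `e s > 0`, and let `I = ∏ s, I(L s) ^ e s`. The
ideal `I` is generated by `gens c e`, the products of `e s` of the linear forms of each `L s`.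

*The motivic zeta function* `zetaJ (gens c e)` is `𝕃 ^ (-n) ∑_{N ≥ 1} [X_N] 𝕃 ^ (-n N) T ^ N`, where
`X_N` is the variety of the `N`-jets at the origin on which `I` has the order `N`, and `n` is the
number of the variables. By the change of variables formula this is the function defined with a
principalization. `𝕃 ^ (-s₀)` is a pole if it does not lie in `ratRing ℂ {q | 0 < q.2, q.1 / q.2 ≠ s₀}`,
the ring generated over `𝓜 = K₀(Var_ℂ)[𝕃⁻¹]` by `T` and the `1 / (1 - 𝕃 ^ q.1 T ^ q.2)`.

*The monodromy zeta functions.* The points of the exceptional divisor of the blow-up of `(f_j)` over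
`p` are the points `e = (p, [y])`, where `y = (y_j)` is a limit of the `[f_j]`: there is an arc `φ` with
`φ(0) = p` and `f_j(φ) = t ^ N (c y_j + ⋯)`, `c ≠ 0`. Let `JetE f p y N` be the variety of the `N`-jets
`φ` with these properties, i.e. those whose lifts to the blow-up have the origin `e` and on which the
ideal has the order `N`. By the change of variables formula, applied to a principalization `X̃` with
the morphism `ψ` to the blow-up, its class is the sum of the
`[E_j° ∩ ψ⁻¹(e)] (𝕃 - 1) 𝕃 ^ (n N - ν_j N / N_j)`, `N_j ∣ N`, modulo `(𝕃 - 1) ^ 2`, and so the Euler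
characteristic of the quotient by `𝔾_m` (`φ(t) ↦ φ(λ t)`) is the sum of the `χ(E_j° ∩ ψ⁻¹(e))` over the
`j` with `N_j ∣ N`. By the formula of A'Campo type, the exponents `b M` of
`Z^mon_{I,e} = ∏_M (1 - t ^ M) ^ (b M)` are determined by `∑_{M ∣ N} b M = χ(JetE f p y N / 𝔾_m)`
for all `N ≥ 1`. This is the definition of `MonZeta f p y b`; the class of `JetE f p y N` will be a
polynomial in `𝕃` and `𝕃⁻¹`, so that the Euler characteristic can be read off
(`EulerQ`: `[X] 𝕃 ^ k = (𝕃 - 1) P(𝕃)` and `χ(X / 𝔾_m) = P(1)`). The order of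
`∏_M (1 - t ^ M) ^ (b M)` at `exp(2 π i s₀)` is the sum of the `b M` with `s₀ M ∈ ℤ`.

*Irreducible flats.* A set `A` of indices is irreducible (`IrrSet`), if it is nonempty, contains all `s`
with `⋂_A L ⊆ L s`, and if `⋂_{A₁} L + ⋂_{A₂} L` is never the whole space, for a partition of `A` into
two nonempty sets.

The proof. (1) There is a recursion for the zeta functions of the subfamilies: the jets with
`φ(0) = 0` are divided by `t`, and the origin of the quotient is moved back to `0`; this preserves
linear subspaces. If `⋂_{A₁} L + ⋂_{A₂} L` is the whole space, the zeta function of `A₁ ∪ A₂` is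
the product; so only the pairs of the irreducible `A` occur. (2) The leading coefficients along
`p + t v`, for `p ∈ G = ⋂_A L` and a general vector `v`, define a point `e`. The jets over `e` are
those with leading coefficients in `ℂ^* v + L s`, and the same recursion, modulo `(𝕃 - 1) ^ 2`, reduces
the computation to the complement of hyperplanes in the space `{u | u ∈ ℂ v + L s for all s ∈ A}`,
whose arrangement is connected by the choice of `v`. Its Euler characteristic is, up to the sign,
the beta invariant of Crapo of a connected matroid, which is positive (Tutte's theorem on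
deletions and contractions). -/

namespace Pool.Agent.Results.MP_4e5fcd_ag.SubspaceArrangements

open Pool.Agent.W428.MOT Pool.Agent.TH192.MT Pool.Agent.D0H67.SUB

open Classical in
/-- **The motivic monodromy conjecture for products of powers of ideals of linear subspaces.** Let
`L s`, `s ∈ S`, be proper linear subspaces of `ℂ ^ σ`, `e s > 0` and `I = ∏ s, I(L s) ^ e s`. Then:
(1) Q1 holds for `I`: for every rational number `s₀`, if `𝕃 ^ (-s₀)` is a pole of the local motivic zeta
function of `I` at the origin, then in every ball around the origin there is a point `p`, and a point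
`e = (p, [y])` of the exceptional divisor of the blow-up of `I`, such that `exp(2 π i s₀)` is a zero or a
pole of `Z^mon_{I,e}`.
(2) The motivic zeta function lies in the ring generated over `𝓜` by `T` and the
`1 / (1 - 𝕃 ^ (-codim G) T ^ (N_G))`, `G = ⋂_A L`, `N_G = ∑_A e`, for the irreducible sets `A`.
(3) For every irreducible set `A` there are points `p ∈ G` as near to the origin as one wants, and
points `e = (p, [y])`, with `Z^mon_{I,e} = (1 - t ^ (N_G)) ^ χ`, `χ ≠ 0`. -/
theorem result {σ S : Type} [Fintype σ] [Fintype S] {κ : S → Type}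
    (c : (s : S) → κ s → σ → ℂ) (e : S → ℕ) (he : ∀ s, 0 < e s) (hc : ∀ s, zeros (c s) ≠ ⊤) :
    (∀ s₀ : ℚ, zetaJ (gens c e) ∈ ratRing ℂ {q : ℤ × ℤ | 0 < q.2 ∧ (q.1 : ℚ) / q.2 ≠ s₀} ∨
      ∀ ε : ℝ, 0 < ε → ∃ p : σ → ℂ, ‖p‖ < ε ∧
        ∃ (y : ((s : S) → Fin (e s) → κ s) → ℂ) (b : ℕ →₀ ℤ), MonZeta (gens c e) p y b ∧
          ∑ M ∈ b.support.filter (fun M : ℕ => ∃ k : ℤ, s₀ * (M : ℚ) = k), b M ≠ 0) ∧
    zetaJ (gens c e) ∈ ratRing ℂ {q : ℤ × ℤ | ∃ A : Finset S, IrrSet (fun s => zeros (c s)) A ∧
      q = (-((Fintype.card σ - Module.finrank ℂ (A.inf fun s => zeros (c s) : Submodule _ _)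
        : ℕ) : ℤ), ((∑ s ∈ A, e s : ℕ) : ℤ))} ∧
    ∀ A : Finset S, IrrSet (fun s => zeros (c s)) A → ∀ ε : ℝ, 0 < ε →
      ∃ p ∈ (A.inf fun s => zeros (c s) : Submodule ℂ (σ → ℂ)), ‖p‖ < ε ∧
        ∃ (y : ((s : S) → Fin (e s) → κ s) → ℂ) (χ : ℤ), χ ≠ 0 ∧
          MonZeta (gens c e) p y (Finsupp.single (∑ s ∈ A, e s) χ) :=
  ⟨fun s₀ => Fin.q1 Pool.Agent.D0H9.SUB.ord1 Pool.Agent.D0H9.SUB.ord2 Pool.Agent.D0H9.SUB.trans
      Pool.Agent.D0H9.SUB.pt Pool.Agent.D0H25.SUB.forms
      (Cong.main Pool.Agent.D0H25.SUB.forms (Euler.main Pool.Agent.D0H25.SUB.main_beta))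
      c e he hc s₀,
    Fin.rat Pool.Agent.D0H9.SUB.ord1 Pool.Agent.D0H9.SUB.trans c e he hc,
    fun A hA ε hε => Fin.mon Pool.Agent.D0H9.SUB.ord2 Pool.Agent.D0H9.SUB.trans
      Pool.Agent.D0H9.SUB.pt Pool.Agent.D0H25.SUB.forms
      (Cong.main Pool.Agent.D0H25.SUB.forms (Euler.main Pool.Agent.D0H25.SUB.main_beta))
      c e he hc A hA ε hε⟩

end Pool.Agent.Results.MP_4e5fcd_ag.SubspaceArrangements
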