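import Pool.Agent.D0H67.TS.Main
import Pool.Agent.D0H67.TS.Det
import Pool.Agent.D0H67.TS.Hom
import Pool.Agent.D0H67.TS.Sdet
import Pool.Agent.D0H67.TS.Shom
import Pool.Agent.D0H87.TS.Ssyl
import Pool.Agent.D0H87.TS.Scen
import Pool.Agent.D0H98.TS.Srank
import Pool.Agent.D0H70.TS.Saind
import Pool.Agent.D0H53.TS.Monn
import Pool.Agent.D0H53.TS.Rat2t
import Pool.Agent.D0H16.TS.Sumn
import Pool.Agent.D0H5.TS.Ordc
import Pool.Agent.D0H5.TS.Rec3t
import Pool.Agent.D0H5.TS.Tl
import Pool.Agent.D0H3.TS.Fibr
import Pool.Agent.D0H77.TS.Liftn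
import Pool.Agent.D0H77.TS.Foldn
import Pool.Agent.D0H22.TS.Scalen
import Pool.Agent.D0H22.TS.Pown
import Pool.Agent.D0H17.TS.Orbn
import Pool.Agent.D0H17.TS.Wrel
import Pool.Agent.D0H17.TS.Wsum
import Pool.Agent.D0H87.TS.Vmonn
import Pool.Agent.D0H96.TS.Had
import Pool.Agent.D0H41.TS.Powt
import Pool.Agent.D0H29.CX.Prodz
import Pool.Agent.D0H9.CX.Powz
import Pool.Agent.D0H72.TS.Syla
import Pool.Agent.D0H42.TS.Sylb
import Pool.Agent.D0H42.TS.Cen
import Pool.Agent.D0H20.TS.Rank
import Pool.Agent.D0H20.TS.Aind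
import Pool.Agent.D0H17.TS.Maxp

set_option autoImplicit false

/-! # The motivic monodromy conjecture for sums of ideals in disjoint sets of variables

`GermS g D` (in `Pool.Agent.D0H67.TS.Germ`) is the least class of germs at the origin of ideals `(g j)`,
with sets `D` of pairs of integers, with the following properties.

(sum) It is closed under the sums `I + J` in disjoint sets of variables, with the pairs
`(a l / b + a' l / b', l)`, `l = lcm (b, b')`, `(a, b) ∈ D`, `(a', b') ∈ D'` (`addD`): the poles `s₀ + s₀'`.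
So it is closed under products of schemes `V(I) × V(J)`.

(ext) It is closed under the products `I J`, `I, J ≠ 0`, in disjoint sets of variables, with the pairs
`D ∪ D'`.

(pow) It contains the powers of its germs, with the pairs `(a, m b)`, `(a, b) ∈ D`.

(pull) It contains the pull-backs of its germs by polynomial maps `f` with `f(0) = 0` and surjective
differential at `0`, and the ideals which are equal to them near `0`.

(fold) It contains the ideals of fold type `J_P = ∑_{e ∈ P} ∏_s I(L s) ^ e s` of linear subspaces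
`L s`, where `P` is a finite set of exponents with the properties `Greedy` and `ExchOn` (for all closed
sets `A` with `f(A) > 0`, `f(A)` the least value of `e(A)`, `e ∈ P`), with the pairs
`(-codim G_A, f(A))`, `G_A = ⋂_A L`. For example all powers of the ideal of one linear subspace.

(cone) Let `x` be the variables of weight `w i > 0`, let `s` be the variables of weight `0`
(parameters), and let the `g j` be weighted homogeneous of degree `d > 0` in `x`, with coefficients
which are polynomials in `s`. Let `C` be the set of the points `(x, 0)`, `x ≠ 0`, at which all `g j` vanish.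
Suppose that

* the greatest common divisor of the weights of the coordinates `≠ 0` of `u` is `1`, for every point `u`
  of `C`;
* the greatest common divisor of all the weights is `1`, and as many of the `g j` as there are variables
  `x` are algebraically independent over `ℂ(s)` (the ideal has maximal analytic spread along
  `x = 0`); or `d ∣ (∑ w i) N` for some pair `(-c, N)` of a fold chart at a point of `C`;
* there are finitely many charts, that is polynomial maps `f ω` to affine spaces and germs `g' ω` of the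
  class, such that the ideal `(g j)` is the pull-back of `g' ω` by `f ω` where `h ω ≠ 0`, and every point
  `u` of `C` is the center of one of the charts, i.e. `f ω (u) = 0`, `f ω` has surjective differential at
  `u`, and `h ω (u) ≠ 0`, or `(g j)` is of fold type at `u` (`LocFold`, for example a power of the ideal of
  a smooth subvariety through `u`).

Then `(g j)` belongs to the class, with the pair `(-∑ w i, d)` and the pairs of the charts.

For example, the class contains the ideals of the minors of given size of generic and of generic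
symmetric matrices (part (4): they are homogeneous, and outside the origin they are locally pull-backs
of the ideals of minors of smaller matrices, by the Schur complement), the ideals of the cones over
smooth projective varieties of `Qh.smooth`, the ideals which are generated by monomials with pairwise disjoint supports, and
all the sums, products, powers and pull-backs of such ideals, in disjoint sets of variables, and the
cones of maximal analytic spread which are locally of this type.

*The motivic zeta function* `zetaJ g` is `𝕃 ^ (-n) ∑_{N ≥ 1} [X_N] 𝕃 ^ (-n N) T ^ N`, where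
`X_N` is the variety of the `N`-jets at the origin on which the ideal has the order `N`, and `n` is the
number of the variables. By the change of variables formula this is the function defined with a
principalization. `𝕃 ^ (-s₀)` is a pole if it does not lie in `ratRing ℂ {q | 0 < q.2, q.1 / q.2 ≠ s₀}`,
the ring generated over `𝓜 = K₀(Var_ℂ)[𝕃⁻¹]` by `T` and the `1 / (1 - 𝕃 ^ q.1 T ^ q.2)`.

*The monodromy zeta functions.* The points of the exceptional divisor of the blow-up of `(g_j)` over
`p` are the points `e = (p, [y])` for which there is an arc `φ` with `φ(0) = p` and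
`g_j(φ) = t ^ N (c y_j + ⋯)`, `c ≠ 0`. `JetE g p y N` is the variety of the `N`-jets `φ` with these
properties. By the change of variables formula, applied to a principalization `X̃` with the morphism `ψ`
to the blow-up, its class is the sum of the `[E_j° ∩ ψ⁻¹(e)] (𝕃 - 1) 𝕃 ^ (n N - ν_j N / N_j)`,
`N_j ∣ N`, modulo `(𝕃 - 1) ^ 2`, and so the Euler characteristic of the quotient by `𝔾_m`
(`φ(t) ↦ φ(λ t)`) is the sum of the `χ(E_j° ∩ ψ⁻¹(e))` over the `j` with `N_j ∣ N`. By the formula of
A'Campo type, the exponents `b M` of `Z^mon_{I,e} = ∏_M (1 - t ^ M) ^ (b M)` are determined by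
`∑_{M ∣ N} b M = χ(JetE g p y N / 𝔾_m)` for all `N ≥ 1`. This is the definition of `MonZeta g p y b`
(`EulerQ`: `[X] 𝕃 ^ k = (𝕃 - 1) P(𝕃)` and `χ(X / 𝔾_m) = P(1)`).

The proof. (1) The series of the classes of the jets of order `≥ N` of `I + J` is the Hadamard product of
those of `I` and `J`; it is shown that for the germs of the class this series, and not only the zeta
function, has the denominators `1 - 𝕃 ^ a T ^ b`, `(a, b) ∈ D` (without `1 - T`), and that Hadamard products
of such series have the denominators which belong to `addD D D'`. (2) For the points `e` used for the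
eigenvalues, the jets over `e`, with the function `c`, are `k` copies of `𝔾_m × 𝔸 ^ m` with the function
`u ^ M` (`Nice`); the jets over the point `((p, p'), [y : y'])` of the blow-up of `I + J` are the pairs with
the same `c`, so that `(1 - t ^ M) ^ k` and `(1 - t ^ M') ^ k'` give
`(1 - t ^ lcm (M, M')) ^ (k k' gcd (M, M'))`: the join formula.

With modules by helper3, helper5, helper16, helper17, helper20, helper22, helper41, helper42, helper53,
helper70, helper72, helper77, helper87, helper96, helper98 (and helper9, helper29, helper35, helper65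
for `ConeGerms`). -/

namespace Pool.Agent.Results.MP_4e5fcd_ag.SumsOfGerms

open Pool.Agent.W428.MOT Pool.Agent.TH192.MT Pool.Agent.D0H67.SUB Pool.Agent.D0H67.CX
  Pool.Agent.D0H67.TS

open Classical in
/-- In every ball around the origin there is a point `p`, and a point `e = (p, [y])` of the
exceptional divisor of the blow-up of the ideal `(g j)`, such that `exp(2 π i s₀)` is a zero or a pole
of `Z^mon_e`. -/
def Eig {σ J : Type} [Fintype σ] (g : J → MvPolynomial σ ℂ) (s₀ : ℚ) : Prop :=
  ∀ ε : ℝ, 0 < ε → ∃ p : σ → ℂ, ‖p‖ < ε ∧ ∃ (y : J → ℂ) (b : ℕ →₀ ℤ), MonZeta g p y b ∧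
    ∑ M ∈ b.support.filter (fun M : ℕ => ∃ k : ℤ, s₀ * (M : ℚ) = k), b M ≠ 0

/-- Q1 for the ideal generated by the polynomials `g j`: for every rational number `s₀`, if
`𝕃 ^ (-s₀)` is a pole of the local motivic zeta function at the origin, then `Eig g s₀`. -/
def Q1 {σ J : Type} [Fintype σ] (g : J → MvPolynomial σ ℂ) : Prop :=
  ∀ s₀ : ℚ, zetaJ g ∈ ratRing ℂ {q : ℤ × ℤ | 0 < q.2 ∧ (q.1 : ℚ) / q.2 ≠ s₀} ∨ Eig g s₀

/-- In every ball around the origin there is a point `p`, and a point `e = (p, [y])` of the
exceptional divisor of the blow-up, with `Z^mon_e = (1 - t ^ M) ^ k`, `k > 0`, `s₀ M ∈ ℤ`; so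
`exp(2 π i s₀)` is a zero of `Z^mon_e`. -/
def Zero {σ J : Type} [Fintype σ] (g : J → MvPolynomial σ ℂ) (s₀ : ℚ) : Prop :=
  ∀ ε : ℝ, 0 < ε → ∃ p : σ → ℂ, ‖p‖ < ε ∧ ∃ (y : J → ℂ) (M k : ℕ), 0 < M ∧ 0 < k ∧
    MonZeta g p y (Finsupp.single M (k : ℤ)) ∧ ∃ z : ℤ, s₀ * (M : ℚ) = z

/-- **The motivic monodromy conjecture for the class `GermS`**, which contains the fold-type sums of
ideals of linear subspaces, and is closed under sums and products in disjoint sets of variables,
powers, smooth pull-backs, and families of quasi-homogeneous cones of maximal analytic spread. For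
every germ `g` of the class, with the set of pairs `D`, (1) Q1 holds for `g`; (2) the motivic zeta
function lies in the ring generated over `𝓜` by `T` and the `1 / (1 - 𝕃 ^ q.1 T ^ q.2)`, `q ∈ D`; (3) for
all `q ∈ D`, `q.2 > 0` and there are points `e` over points as near to the origin as one wants with
`Z^mon_e = (1 - t ^ M) ^ k`, `k > 0`, `M q.1 / q.2 ∈ ℤ`. Moreover, (4) the class contains the ideals of
the `k`-minors of the generic matrices with the rows `m` and the columns `n`, `1 ≤ k ≤ |m|, |n|`, and
of the generic symmetric matrices with the rows and columns `m`, `1 ≤ k < |m|`. -/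
theorem result :
    (∀ {σ J : Type} [Fintype σ] [Finite J] (g : J → MvPolynomial σ ℂ) (D : Set (ℤ × ℤ)),
      GermS g D →
        Q1 g ∧ zetaJ g ∈ ratRing ℂ D ∧ ∀ q ∈ D, 0 < q.2 ∧ Zero g ((q.1 : ℚ) / q.2)) ∧
    (∀ (k : ℕ) {m n : Type} [Fintype m] [Fintype n], 1 ≤ k → k ≤ Fintype.card m →
      k ≤ Fintype.card n → ∃ D, GermS (minG m n k) D) ∧
    ∀ (k : ℕ) {m : Type} [Fintype m], 1 ≤ k → k < Fintype.card m →
      ∃ D, GermS (minS m k) D := by
  refine ⟨fun {σ J} _ _ g D h => ?_, det_germ Pool.Agent.D0H72.TS.t_SYLA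
    Pool.Agent.D0H42.TS.t_SYLB Pool.Agent.D0H42.TS.t_CEN Pool.Agent.D0H20.TS.t_RANK
    Pool.Agent.D0H20.TS.t_AIND (Pool.Agent.D0H17.TS.t_MAXP Pool.Agent.D0H72.TS.t_SYLA
      Pool.Agent.D0H42.TS.t_SYLB Pool.Agent.D0H42.TS.t_CEN) t_BASE1 t_HOM,
    sdet_germ (Pool.Agent.D0H87.TS.t_SSYL Pool.Agent.D0H72.TS.t_SYLA Pool.Agent.D0H42.TS.t_SYLB)
      Pool.Agent.D0H87.TS.t_SCEN (Pool.Agent.D0H98.TS.t_SRANK Pool.Agent.D0H20.TS.t_RANK)
      Pool.Agent.D0H70.TS.t_SAIND t_SBASE t_SHOM⟩
  classical
  have hG := main Pool.Agent.D0H53.TS.t_RAT2T Pool.Agent.D0H5.TS.t_ADD2W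
    (Pool.Agent.D0H5.TS.t_REC3W (Pool.Agent.D0H5.TS.t_REC3T Pool.Agent.D0H17.TS.t_WREL))
    (Pool.Agent.D0H77.TS.t_LIFTN Pool.Agent.D0H5.TS.t_ORDC Pool.Agent.D0H3.TS.t_FIBR)
    Pool.Agent.D0H77.TS.t_FOLDN Pool.Agent.D0H22.TS.t_SCALEN
    (Pool.Agent.D0H87.TS.t_VMONN Pool.Agent.D0H17.TS.t_ORBN)
    Pool.Agent.D0H29.CX.t_PRODZ (Pool.Agent.D0H96.TS.t_PRODT Pool.Agent.D0H96.TS.t_DROP)
    Pool.Agent.D0H9.CX.t_POWZ (Pool.Agent.D0H41.TS.t_POWT Pool.Agent.D0H96.TS.t_DROP)
    Pool.Agent.D0H22.TS.t_POWN (Pool.Agent.D0H17.TS.t_WSUM Pool.Agent.D0H17.TS.t_WREL)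
    Pool.Agent.D0H96.TS.t_HAD (Pool.Agent.D0H16.TS.t_SUMN Pool.Agent.D0H16.TS.t_GMN) g D h
  have hzero : ∀ q ∈ D, Zero g ((q.1 : ℚ) / q.2) := by
    intro q hq ε hε
    obtain ⟨p, hp, y, M, k, hn, hz⟩ := hG.2.2 q hq ε hε
    exact ⟨p, hp, y, M, k, hn.2.1, hn.2.2.1, Pool.Agent.D0H53.TS.t_MONN g p y M k hn, hz⟩
  have hzeta : zetaJ g ∈ ratRing ℂ D := by
    obtain ⟨M, hL, hM⟩ := exists_meas ℂ
    exact Pool.Agent.D0H67.CX.Core.zeta_of g D M hM
      (Pool.Agent.D0H96.TS.t_DROP (Lu ℂ) D hG.1 1 _ (hG.2.1 M hL))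
  refine ⟨fun s₀ => ?_, hzeta, fun q hq => ⟨hG.1 q hq, hzero q hq⟩⟩
  by_cases hs : ∃ q ∈ D, (q.1 : ℚ) / q.2 = s₀
  · right
    obtain ⟨q, hq, rfl⟩ := hs
    intro ε hε
    obtain ⟨p, hp, y, M, k, hM, hk, hn, hz⟩ := hzero q hq ε hε
    refine ⟨p, hp, y, _, hn, ?_⟩
    have hk' : (k : ℤ) ≠ 0 := by exact_mod_cast hk.ne'
    rw [Finsupp.support_single_ne_zero _ hk', Finset.filter_singleton, if_pos hz,
      Finset.sum_singleton, Finsupp.single_eq_same]
    exact hk'
  · left
    refine Pool.Agent.TH192.MT.rat_mono (Lu ℂ) ?_ hzeta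
    exact fun q hq => ⟨hG.1 q hq, fun h1 => hs ⟨q, hq, h1⟩⟩

end Pool.Agent.Results.MP_4e5fcd_ag.SumsOfGerms
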